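import Mathlib
import Pool.Agent.Lib.MP_0da313_nt.HC.Main
import Pool.Agent.Lib.MP_6b8fc7_nt.CD.Loc

namespace Pool.Agent.Results.MP_6b8fc7_nt.AlmostPrimeShifts

variable {K L : ℕ}

/-- `t (n - 2 (d t)²) ∏ᵢ (n + hᵢ - 2 (d t)²) ∏ⱼ (t + h'ⱼ)`. -/
def F (d : ℕ) (h : Fin K → ℕ) (h' : Fin L → ℕ) (n t : ℤ) : ℤ :=
  t * (n - 2 * (d * t) ^ 2) * (∏ i, (n + h i - 2 * (d * t) ^ 2)) * ∏ j, (t + h' j)

/-- For every prime `p ≤ 2 K + L + 3 + d` some value `F d h h' n t` is prime to `p`. -/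
def Loc (d : ℕ) (h : Fin K → ℕ) (h' : Fin L → ℕ) (n : ℕ) : Prop :=
  ∀ p : ℕ, p.Prime → p ≤ 2 * K + L + 3 + d → ∃ t : ℤ, ¬ (p : ℤ) ∣ F d h h' n t

/-- The number of residues `t` modulo `p` such that `p` divides `F d h h' n t`. -/
def w (d : ℕ) (h : Fin K → ℕ) (h' : Fin L → ℕ) (n p : ℕ) : ℕ :=
  ((Finset.range p).filter (fun t : ℕ => (p : ℤ) ∣ F d h h' n t)).card

/-- `∏_{p ≤ n} (1 - w d h h' n p / p)`, over the primes `p`. -/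
noncomputable def sing (d : ℕ) (h : Fin K → ℕ) (h' : Fin L → ℕ) (n : ℕ) : ℝ :=
  ∏ p ∈ (Finset.Icc 1 n).filter Nat.Prime, (1 - (w d h h' n p : ℝ) / p)

/-- The primes `q` with `2 (d q)² ≤ n` for which `n - 2 (d q)²` is prime, while every
`n - 2 (d q)² + hᵢ` and every `q + h'ⱼ` has at most `B` prime factors (with multiplicity), each of
them `p` with `p ^ B > n`. -/
def Good (d B : ℕ) (h : Fin K → ℕ) (h' : Fin L → ℕ) (n : ℕ) : Set ℕ :=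
  {q : ℕ | q.Prime ∧ 2 * (d * q) ^ 2 ≤ n ∧ (n - 2 * (d * q) ^ 2).Prime ∧
    (∀ i, ArithmeticFunction.cardFactors (n - 2 * (d * q) ^ 2 + h i) ≤ B ∧
      ∀ p : ℕ, p.Prime → p ∣ n - 2 * (d * q) ^ 2 + h i → n < p ^ B) ∧
    ∀ j, ArithmeticFunction.cardFactors (q + h' j) ≤ B ∧
      ∀ p : ℕ, p.Prime → p ∣ q + h' j → n < p ^ B}

open Classical in
/-- For all `d ≥ 1` and all `K`, `L` there are `B` and `c > 0` such that, for all `h`, `h'`: first,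
`sing d h h' n ≥ c / (log n) ^ (2 K + L + 3)` for all `n ≥ 2` with `Loc d h h' n`; second, all
`n ≤ N` with `Loc d h h' n`, with at most `N / (log N) ^ A` exceptions (`A` arbitrary, `N` large),
have at least `c * √n * sing d h h' n` primes `q` in `Good d B h h' n`. Moreover `Loc d h h' n`
holds if `n` is prime to `2 d`, `n ≢ 2` modulo `3` or `3 ∣ d`, and all `hᵢ` and `h'ⱼ` are divisible
by all primes `p ≤ 2 K + L + 3 + d`; and, for `K = L = 1` and `h = h' = 2`, if `n ≡ 1` modulo `6`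
and `d = 1`, or `n ≡ 5` modulo `6` and `d = 3`. -/
theorem result :
    (∀ d : ℕ, 1 ≤ d → ∀ K L : ℕ, ∃ (B : ℕ) (c : ℝ), 0 < c ∧ ∀ (h : Fin K → ℕ) (h' : Fin L → ℕ),
      (∀ n : ℕ, 2 ≤ n → Loc d h h' n → c / (Real.log n) ^ (2 * K + L + 3) ≤ sing d h h' n) ∧
      ∀ A : ℕ, ∀ᶠ N : ℕ in Filter.atTop,
        (((Finset.Icc 1 N).filter (fun n : ℕ => Loc d h h' n ∧
          ¬ (c * (Real.sqrt n * sing d h h' n) ≤ (Set.ncard (Good d B h h' n) : ℝ)))).card : ℝ) ≤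
          N / (Real.log N) ^ A) ∧
    (∀ (d K L : ℕ) (h : Fin K → ℕ) (h' : Fin L → ℕ),
      (∀ p : ℕ, p.Prime → p ≤ 2 * K + L + 3 + d → (∀ i, p ∣ h i) ∧ ∀ j, p ∣ h' j) →
      ∀ n : ℕ, Nat.Coprime n (2 * d) → (n % 3 ≠ 2 ∨ 3 ∣ d) → Loc d h h' n) ∧
    (∀ n : ℕ, n % 6 = 1 → Loc (K := 1) (L := 1) 1 (fun _ => 2) (fun _ => 2) n) ∧
    ∀ n : ℕ, n % 6 = 5 → Loc (K := 1) (L := 1) 3 (fun _ => 2) (fun _ => 2) n :=
  ⟨fun _ hd1 K L => Pool.Agent.Lib.MP_6b8fc7_nt.CD.comb Pool.Agent.CM.C.h_sv hd1 K L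
      (Pool.Agent.Lib.MP_6b8fc7_nt.CD.main Pool.Agent.HC.F.h_fin2 hd1 K L),
    fun d _ _ h h' hh n hn hn3 => Pool.Agent.Lib.MP_6b8fc7_nt.CD.Loc_of_dvd d h h' hh n hn hn3,
    fun n hn => Pool.Agent.Lib.MP_6b8fc7_nt.CD.Loc_twin1 n hn,
    fun n hn => Pool.Agent.Lib.MP_6b8fc7_nt.CD.Loc_twin3 n hn⟩

end Pool.Agent.Results.MP_6b8fc7_nt.AlmostPrimeShifts
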