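import Pool.Agent.Lib.MP_6b8fc7_nt.All

set_option autoImplicit false

/-!
# MP_6b8fc7_nt: odd `n = 2 m ^ 2 + P_2` with `O(X ^ (5/8))` exceptions
-/

namespace Pool.Agent.Results.MP_6b8fc7_nt.P2Exceptions

open Finset
open scoped ArithmeticFunction.Omega

/-- The number of the integers `m ≥ 1` for which `n - 2 m ^ 2` is a number `≥ 2` with at most `r` prime
factors, counted with multiplicity. -/
noncomputable def numRep (r n : ℕ) : ℕ :=
  ((Icc 1 n).filter (fun m : ℕ => 2 * m ^ 2 + 2 ≤ n ∧ Ω (n - 2 * m ^ 2) ≤ r)).card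

/-- The singular series of the problem, cut at `n`: the product of `1 - (2n/p) / (p - 1)` over the
odd primes `p ≤ n`. -/
noncomputable def singSer (n : ℕ) : ℝ :=
  ∏ p ∈ (range (n + 1)).filter (fun p => p.Prime ∧ 3 ≤ p),
    (1 - ((jacobiSym (2 * (n : ℤ)) p : ℤ) : ℝ) / ((p : ℝ) - 1))

open Classical in
theorem result : ∃ (c : ℝ) (X0 : ℕ), 0 < c ∧ ∀ X : ℕ, X0 ≤ X →
    (((Icc 1 X).filter (fun n : ℕ => Odd n ∧
      (numRep 2 n : ℝ) < c * (Real.sqrt n / Real.log n) * singSer n)).card : ℝ) ≤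
      (X : ℝ) ^ (5 / 8 : ℝ) := by
  obtain ⟨c, X0, hc, h⟩ := Pool.Agent.PSq.all_T3
  refine ⟨c, X0, hc, fun X hX => ?_⟩
  have h1 := h X hX
  have e : ∀ n : ℕ, ((numRep 2 n : ℝ) < c * (Real.sqrt n / Real.log n) * singSer n) ↔
      ((Pool.Agent.PSq.NP 2 n : ℝ) < c * Real.sqrt n / Real.log n * Pool.Agent.PSq.Sn n) := by
    intro n
    rw [mul_div_assoc]
    rfl
  simp only [e]
  exact h1

end Pool.Agent.Results.MP_6b8fc7_nt.P2Exceptions
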