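import Pool.Agent.Lib.MP_6b8fc7_nt.All

set_option autoImplicit false

/-!
# MP_6b8fc7_nt: odd `n = 2 m ^ 2 + P_3` outside a bounded number of square classes
-/

namespace Pool.Agent.Results.MP_6b8fc7_nt.P3Classes

open Finset
open scoped ArithmeticFunction.Omega

/-- The number of the integers `m ≥ 1` for which `n - 2 m ^ 2` is a number `≥ 2` with at most `r` prime
factors, counted with multiplicity. -/
noncomputable def numRep (r n : ℕ) : ℕ :=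
  ((Icc 1 n).filter (fun m : ℕ => 2 * m ^ 2 + 2 ≤ n ∧ Ω (n - 2 * m ^ 2) ≤ r)).card

/-- The singular series of the problem, cut at `n`: the product of `1 - (2n/p) / (p - 1)` over the
odd primes `p ≤ n`. -/
noncomputable def singSer (n : ℕ) : ℝ :=
  ∏ p ∈ (range (n + 1)).filter (fun p => p.Prime ∧ 3 ≤ p),
    (1 - ((jacobiSym (2 * (n : ℤ)) p : ℤ) : ℝ) / ((p : ℝ) - 1))

theorem result : ∃ (c : ℝ) (K Y0 : ℕ), 0 < c ∧ ∀ Y : ℕ, Y0 ≤ Y → ∃ S : Finset ℕ, S.card ≤ K ∧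
    (∀ s ∈ S, Odd s ∧ Squarefree s ∧ s ≤ Y) ∧
    ∀ n : ℕ, Odd n → Y ≤ n ^ 2 → n ≤ Y → (∀ s ∈ S, ∀ k : ℕ, n ≠ s * k ^ 2) →
      c * (Real.sqrt n / Real.log n) * singSer n ≤ numRep 3 n := by
  obtain ⟨c, K, Y0, hc, h⟩ := Pool.Agent.PSq.all_T2
  refine ⟨c, K, Y0, hc, fun Y hY => ?_⟩
  obtain ⟨S, hS, hS2, h2⟩ := h Y hY
  refine ⟨S, hS, hS2, fun n hn hYn hnY hk => ?_⟩
  have h3 := h2 n hn hYn hnY hk
  rw [mul_div_assoc] at h3
  exact h3

end Pool.Agent.Results.MP_6b8fc7_nt.P3Classes
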